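import Pool.Agent.Helper48.OD.St

set_option autoImplicit false

namespace Pool.Agent.Helper22.OD

open Pool.Agent.Helper43.GD Pool.Agent.Helper48.OD

/-- arithmetic part -/
theorem cht_arith (h : ℕ) (h1 : 1 ≤ h) : ∃ a b m f : ℕ, Odd b ∧ h = 2 ^ a * b ∧
    2 ^ (f + 1) = 1 + b * m ∧ Odd m := by
  obtain ⟨a, b, hb, hab⟩ := Nat.exists_eq_two_pow_mul_odd (n := h) (by omega)
  have hb0 : 0 < b := hb.pos
  have hphi : 0 < Nat.totient b := Nat.totient_pos.2 hb0
  have hcop : Nat.Coprime 2 b := (Nat.coprime_two_left).2 hb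
  have hmod : 2 ^ Nat.totient b ≡ 1 [MOD b] := Nat.ModEq.pow_totient hcop
  obtain ⟨f, hf⟩ : ∃ f, f + 1 = Nat.totient b := ⟨Nat.totient b - 1, by omega⟩
  rw [← hf] at hmod
  have hge : 1 ≤ 2 ^ (f + 1) := Nat.one_le_two_pow
  have hdvd : b ∣ 2 ^ (f + 1) - 1 := (Nat.modEq_iff_dvd' hge).1 hmod.symm
  obtain ⟨m, hm⟩ := hdvd
  have he : 2 ^ (f + 1) = 1 + b * m := by omega
  refine ⟨a, b, m, f, hb, hab, he, ?_⟩
  by_contra hme
  rw [Nat.not_odd_iff_even] at hme
  have h3 : Even (b * m) := hme.mul_left b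
  have h4 : Even (2 ^ (f + 1)) := (Nat.even_pow).2 ⟨even_two, by omega⟩
  rw [he] at h4
  have : Even (1 + b * m - b * m) := by
    rw [Nat.even_sub (by omega)]
    exact ⟨fun _ => h3, fun _ => h4⟩
  rw [Nat.add_sub_cancel] at this
  exact absurd this (by decide)

theorem isUnit_of_sub_nilp {R : Type} [CommRing R] {u y : R} (hu : IsUnit u)
    (h : IsNilpotent (y - u)) : IsUnit y := by
  have := IsNilpotent.isUnit_add_left_of_commute h hu (Commute.all _ _)
  rwa [add_sub_cancel] at this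

theorem nilp2 {R : Type} [CommRing R] (h2 : IsNilpotent (2 : R)) (t : R) : IsNilpotent (2 * t) :=
  (Commute.all 2 t).isNilpotent_mul_right h2

/-- powers of `1 + 4t` -/
theorem pow_one_four {R : Type} [CommRing R] (t : R) (n : ℕ) :
    ∃ t' : R, (1 + 4 * t) ^ n = 1 + 4 * t' := by
  induction n with
  | zero => exact ⟨0, by simp⟩
  | succ n ih =>
    obtain ⟨t', ht'⟩ := ih
    refine ⟨t' + t + 4 * t' * t, ?_⟩
    rw [pow_succ, ht']
    ring

theorem hCHT (hBIN : StBIN) : StCHT := by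
  intro l k h r L _ x hR h2
  obtain ⟨a, b, m, f, hb, hab, hq, hm⟩ := cht_arith h hR.h1
  have hxh : x ^ h = -1 := by
    apply Units.ext
    push_cast
    exact hR.xh
  have hx2h : x ^ (2 * h) = 1 := by
    rw [mul_comm, pow_mul, hxh]
    simp
  -- `2^(a+1)` divides `k`
  have hdk : 2 ^ (a + 1) ∣ k := by
    have h1 : 2 ^ (a + 1) ∣ r * k := by
      refine dvd_trans ?_ hR.rk
      rw [hab]
      exact ⟨b, by ring⟩
    have hc : Nat.Coprime (2 ^ (a + 1)) r := Nat.Coprime.pow_left _ (Nat.coprime_two_left.2 hR.ro)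
    exact hc.dvd_of_dvd_mul_left h1
  obtain ⟨k', hk'⟩ := hdk
  -- `v ^ q = v`
  have hvq : (x ^ k) ^ (2 ^ (f + 1)) = x ^ k := by
    have e1 : k * 2 ^ (f + 1) = k + (2 * h) * (k' * m) := by
      rw [hq, hab]
      have : k * (b * m) = 2 * (2 ^ a * b) * (k' * m) := by
        conv_lhs => rw [hk']
        ring
      rw [mul_add, mul_one, this]
    rw [← pow_mul, e1, pow_add, pow_mul x (2 * h), hx2h, one_pow, mul_one]
  -- `B = x^l η`
  obtain ⟨η, hη⟩ : ∃ η : Lˣ, η = (x ^ b) ^ (l * m) := ⟨_, rfl⟩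
  have hBη : (x ^ l) ^ (2 ^ (f + 1)) = x ^ l * η := by
    rw [hη, ← pow_mul, ← pow_mul, ← pow_add, hq]
    congr 1
    ring
  obtain ⟨w, hw⟩ := hBIN L ((x : L) ^ l) ((x : L) ^ k) f
  rw [hR.tri, one_pow] at hw
  have hvqL : ((x : L) ^ k) ^ (2 ^ (f + 1)) = (x : L) ^ k := by
    have := congrArg (fun y : Lˣ => (y : L)) hvq
    simpa using this
  have hBL : ((x : L) ^ l) ^ (2 ^ (f + 1)) = (x : L) ^ l * η := by
    have := congrArg (fun y : Lˣ => (y : L)) hBη
    simpa using this
  obtain ⟨C, hC⟩ : ∃ C : L, C = ((x : L) ^ l * (x : L) ^ k) ^ (2 ^ f) := ⟨_, rfl⟩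
  have hCu : IsUnit C := by
    rw [hC]
    exact (((x.isUnit.pow l).mul (x.isUnit.pow k)).pow _)
  have hC2 : C ^ 2 = (x : L) ^ l * η * (x : L) ^ k := by
    rw [hC, ← pow_mul, ← pow_succ, mul_pow, hvqL, hBL]
  rw [hvqL, hBL, ← hC] at hw
  obtain ⟨X, hX⟩ : ∃ X : L, X = (x : L) ^ l := ⟨_, rfl⟩
  obtain ⟨v, hv⟩ : ∃ v : L, v = (x : L) ^ k := ⟨_, rfl⟩
  have htri : X + v = 1 := by rw [hX, hv]; exact hR.tri
  have hXu : IsUnit X := by rw [hX]; exact x.isUnit.pow l
  rw [← hX, ← hv] at hw hC2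
  obtain ⟨Y, hXY⟩ : ∃ Y : L, X * Y = 1 := by
    obtain ⟨u, hu⟩ := hXu
    exact ⟨((u⁻¹ : Lˣ) : L), by rw [← hu]; simp⟩
  have h2w : ∀ t : L, IsNilpotent (2 * t) := nilp2 h2
  have hmain : (2 : L) = 0 := by
    rcases Nat.eq_zero_or_pos a with ha | ha
    · -- `h` odd
      have hbh : x ^ b = -1 := by
        rw [ha, pow_zero, one_mul] at hab
        rw [← hab]
        exact hxh
      rcases Nat.even_or_odd l with hl | hl
      · -- `l` even
        have hη1 : (η : L) = 1 := by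
          rw [hη, hbh, Even.neg_one_pow (hl.mul_right m)]
          simp
        rw [hη1] at hw
        have h3 : 2 * (C + 2 * w) = 0 := by linear_combination (-1 : L) * hw - htri
        have h4 : IsUnit (C + 2 * w) := isUnit_of_sub_nilp hCu (by
          have : C + 2 * w - C = 2 * w := by ring
          rw [this]
          exact h2w w)
        exact (h4.mul_left_eq_zero).1 h3
      · have hη1 : (η : L) = -1 := by
          rw [hη, hbh, Odd.neg_one_pow (hl.mul hm)]
          simp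
        rw [hη1] at hw hC2
        have h3 : 2 * (X - C - 2 * w) = 0 := by linear_combination hw + htri
        have h4 : IsUnit ((X - C - 2 * w) ^ 2) := isUnit_of_sub_nilp hXu (by
          have : (X - C - 2 * w) ^ 2 - X =
              2 * (- (X * v) - X * C - 2 * w * X + 2 * w * C + 2 * w ^ 2) := by
            linear_combination hC2 + X * htri
          rw [this]
          exact h2w _)
        have h5 : IsUnit (X - C - 2 * w) := (isUnit_pow_iff (by norm_num)).1 h4
        exact (h5.mul_left_eq_zero).1 h3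
    · -- `h` even
      obtain ⟨a', ha'⟩ : ∃ a', a = a' + 1 := ⟨a - 1, by omega⟩
      have hl : Odd l := by
        by_contra hle
        rw [Nat.not_odd_iff_even] at hle
        have d1 : 2 ∣ l := hle.two_dvd
        have d2 : 2 ∣ h := by
          rw [hab, ha', pow_succ]
          exact ⟨2 ^ a' * b, by ring⟩
        have d3 : 2 ∣ k := by
          rw [hk', pow_succ]
          exact ⟨2 ^ a * k', by ring⟩
        have d4 := Nat.dvd_gcd (Nat.dvd_gcd d3 d1) d2
        rw [hR.gc] at d4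
        omega
      have hηp : η ^ (2 ^ a) = -1 := by
        rw [hη, ← pow_mul, ← pow_mul]
        have : b * (l * m * 2 ^ a) = h * (l * m) := by rw [hab]; ring
        rw [this, pow_mul, hxh, Odd.neg_one_pow (hl.mul hm)]
      have hηL : (η : L) ^ (2 ^ a) = -1 := by
        have := congrArg (fun y : Lˣ => (y : L)) hηp
        simpa using this
      have hη1 : (η : L) = 1 - 2 * (Y * (C + 2 * w)) := by
        linear_combination (-(η : L) + 1) * hXY - Y * hw - Y * htri
      have hη2 : (η : L) ^ 2 = 1 + 4 * ((Y * (C + 2 * w)) ^ 2 - Y * (C + 2 * w)) := by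
        rw [hη1]; ring
      have h3 : (η : L) ^ (2 ^ a) = ((η : L) ^ 2) ^ (2 ^ a') := by
        rw [ha', pow_succ, mul_comm, pow_mul]
      obtain ⟨t', ht'⟩ := pow_one_four ((Y * (C + 2 * w)) ^ 2 - Y * (C + 2 * w)) (2 ^ a')
      rw [hηL, hη2, ht'] at h3
      have h4 : 2 * (1 + 2 * t') = 0 := by linear_combination -h3
      have h5 : IsUnit (1 + 2 * t') := isUnit_of_sub_nilp isUnit_one (by
        have : 1 + 2 * t' - 1 = 2 * t' := by ring
        rw [this]
        exact h2w _)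
      exact (h5.mul_left_eq_zero).1 h4
  refine ⟨hmain, f, hvq, ?_⟩
  apply Units.ext
  push_cast
  rw [hBL, ← hX]
  linear_combination -hw - htri - (C + 2 * w) * hmain

end Pool.Agent.Helper22.OD
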